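import Mathlib
import Pool.Agent.Y229.CF.IdX

/-!
# The motivic monodromy conjecture at the origin for ideals nondegenerate for the compact faces

Let `k` be a field, `k ⊂ ℂ`, and let `I = (f_1, …, f_r)`, `f_i = ∑_{π j = i} c_j x ^ (m_j) ∈ k[x_1, …, x_n]`,
`c_j ≠ 0`, be generated by polynomials which are nondegenerate with respect to the COMPACT faces of their
Newton polyhedra at the origin (the usual local nondegeneracy of a system): for every `w` with positive
coordinates and every nonempty set of indices the initial forms of the `f_i` of these indices have no common
zero in the complex torus at which their differentials are dependent. The numbers of variables and of generators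
are arbitrary, and so are the singularities of `V(I)`, which need not be a complete intersection.

For a facet of the Newton polyhedron of `g = ∑ y_i f_i` with primitive inner normal vector `a ∈ ℕ ^ (n + r)` let
`N_a = min ⟨a, ·⟩ > 0` be its order and `-|a| / N_a` its candidate pole. Every facet is assumed to be
a pyramid with an apex `y_i x ^ m`, or its candidate pole is an integer, or this candidate pole agrees modulo
integers with the one of a facet which contains a suitable simplex which is not of type `B1`, or it satisfies
the following: at every vertex, the facets of the candidate pole through this vertex are simplices or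
`B1`-facets in a common direction (a variable `x_i` or `y_i`), which may depend on the vertex, or they are
simplices or pyramids with an apex `y_i x ^ m`. Only the vertices count. In particular, all Newton polyhedra are
allowed which are simplicial apart from the pyramids with an apex `y_i x ^ m` (second part of the theorem).

Then the motivic monodromy conjecture holds for `I` at the origin: the local motivic zeta function of `I` lies
in the ring generated by `T` and finitely many `1 / (1 - 𝕃 ^ a T ^ b)` with `a < 0 < b` such that `a / b` is an
integer or the local Bernstein-Sato polynomial of the ideal `I` at the origin (Budur, Mustata and Saito) has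
a root in `a / b + ℤ`; then `exp (2 π i a / b)` is an eigenvalue of Verdier's monodromy at points over points
near the origin.

The starting result `NondegenerateIdeals` needs nondegeneracy for all faces of the Newton polytopes, the ground
field `ℂ` and that each candidate pole which is not an integer comes from a facet which is not `B1`;
`SparseIdealsLocal` and `LinearlyIndependentExponents` are on linearly independent exponents;
`ChiYGenusIdeals` has no condition on the polyhedra, but is on the `χ_y`-genus of the zeta function only. (The
present theorem is mentioned in that file under the name `CompactFacesIdeals`; it was not handed in.)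

The proof is in the library: theorem `Pool.Agent.Y229.CF.nd_idealX'` (project CF of helper229, on the basis
of the projects TH216, W425, W423, W428, W749).
-/

set_option autoImplicit false

namespace Pool.Agent.Results.MP_4e5fcd_ag.CompactFacesIdeals

open MvPolynomial Pool.Agent.W428.MOT Pool.Agent.W749.JI Pool.Agent.TH216.HD
open Pool.Agent.TH216.HDNL
open Pool.Agent.Y229 (SpansI)
open Pool.Agent.Y229.CF (NondegIC)

/-- **The motivic monodromy conjecture at the origin (Bernstein-Sato form modulo integers) for the ideals
`(f_1, ..., f_r)`, `f_i = ∑_{π j = i} c_j x ^ (m_j)`, over `k ⊂ ℂ`, which are nondegenerate with respect to the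
compact faces of the Newton polyhedra of the `f_i` and satisfy `HypVIL`.**

`NondegIC π m c` says that for every `w ∈ ℝ ^ n` with positive coordinates and every nonempty set `Q` of indices
the parts of the `f_i`, `i ∈ Q`, on which `w` is minimal have no common zero in `(ℂ \ 0) ^ n` at which their
differentials are linearly dependent. `V` is a set of indices `j` such that the Newton polyhedron
`conv {m_j, π j = i} + ℝ_{≥ 0} ^ n` of each `f_i` is already given by the `m_j` with `j ∈ V` (`SpansI π m V`), for
instance the set of the vertices.

`HypVIL v V`, for the exponents `v j = cay π m j = (m_j, e_{π j})` of `∑ y_i f_i`, says that for every ray `a` of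
the normal fan of their Newton polyhedron (`IsRay v a`) with `N_a := ordA v a = min_j ⟨a, v j⟩ > 0` one of the
following holds:
* `YApexVL v V a`: for some `i` exactly one of the `v j`, `j ∈ V`, on the facet contains `y_i`, and `a_{y_i} ≠ 0`;
* `N_a` divides `|a|` (the candidate pole is an integer);
* `|a| / N_a - |a'| / N_{a'} ∈ ℤ` for some `a'` with `N_{a'} > 0` and `NonB1 v True a'`: there is a set `J` of
  `#{i | a' i ≠ 0}` elements on the face of `a'` such that the vectors `(v j i)_{a' i ≠ 0}`, `j ∈ J`, are linearly
  independent, such that no variable with `a' i ≠ 0` occurs in exactly one of the monomials `v j`, `j ∈ J`, and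
  there with exponent `1`, and such that (a condition only if some `a' i = 0`) for all `l` on the face of `a'`, if
  `v l` agrees with `∑_{j ∈ J} c_j (v j)` in the coordinates `i` with `a' i ≠ 0`, then
  `∑_j c_j s(v j) ≤ s(v l)`, `s(w) = ∑_{a' i = 0} w_i`;
* `LocVIL v V σ` for `σ = |a| / N_a`: for every `j1 ∈ V`, either there is one variable (an `x_i` or a `y_i`) such
  that each of the rays `a'` with `N_{a'} > 0`, `|a'| / N_{a'} = σ` and `v j1` on its facet satisfies `SimpVL v V a'`
  (the vectors `(v j i)_{a' i ≠ 0}`, for the `j ∈ V` with `v j` on the facet, are linearly independent) or is B1 in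
  the direction of this variable (exactly one of the monomials of the facet with `j ∈ V` contains it, and with
  exponent `1`), or each of these rays satisfies `SimpVL v V a'` or `YApexVL v V a'`.

`IsLocalBIdeal f b` says that `b(s_1 + ⋯ + s_r) ∏ f_i ^ s_i` satisfies a functional equation of Budur, Mustata and
Saito with differential operators with formal power series coefficients; the local Bernstein-Sato polynomial
`b_{I,0}` is one of these polynomials `b`. `fam π m c i = f_i`, and `zetaI` is
`𝕃 ^ (-n) ∑_{N ≥ 1} [𝒳_N] 𝕃 ^ (-n N) T ^ N` with `𝒳_N` the `N`-jets with origin `0` on which `I` has order `N`. The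
finite set `S` is the same for all the fields `K` which contain `k`. Second part: the case in which all the facets
are simplices or pyramids with an apex `y_i x ^ m`. -/
theorem result {k : Type} [Field k] [Algebra k ℂ] {ℓ r n : ℕ} (hℓ : 0 < ℓ) (π : Fin ℓ → Fin r)
    (m : Fin ℓ → Fin n → ℕ) (hinj : ∀ j j', π j = π j' → m j = m j' → j = j')
    (c : Fin ℓ → k) (hc : ∀ j, c j ≠ 0)
    (hnd : NondegIC π m (fun j => algebraMap k ℂ (c j))) (V : Finset (Fin ℓ))
    (hV : SpansI π m V) :
    (HypVIL (cay π m) V → ∃ S : Finset (ℤ × ℤ),
      (∀ p ∈ S, p.1 < 0 ∧ 0 < p.2 ∧ (p.2 ∣ p.1 ∨ ∀ b : Polynomial ℂ,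
        IsLocalBIdeal (fam π m (fun j => algebraMap k ℂ (c j))) b →
          ∃ i : ℤ, b.eval ((p.1 : ℂ) / p.2 - i) = 0)) ∧
      ∀ (K : Type) [Field K] [Algebra k K],
        zetaI (fam π m (fun j => algebraMap k K (c j))) ∈ ratRing K S) ∧
    ((∀ a : Fin (n + r) → ℕ, IsRay (cay π m) a → 0 < ordA (cay π m) a →
        SimpVL (cay π m) V a ∨ YApexVL (cay π m) V a) → ∃ S : Finset (ℤ × ℤ),
      (∀ p ∈ S, p.1 < 0 ∧ 0 < p.2 ∧ (p.2 ∣ p.1 ∨ ∀ b : Polynomial ℂ,
        IsLocalBIdeal (fam π m (fun j => algebraMap k ℂ (c j))) b →
          ∃ i : ℤ, b.eval ((p.1 : ℂ) / p.2 - i) = 0)) ∧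
      ∀ (K : Type) [Field K] [Algebra k K],
        zetaI (fam π m (fun j => algebraMap k K (c j))) ∈ ratRing K S) := by
  refine ⟨fun hL => Pool.Agent.Y229.CF.nd_idealX' hℓ π m hinj c hc hnd V hV hL, fun hS => ?_⟩
  refine Pool.Agent.Y229.CF.nd_idealX' hℓ π m hinj c hc hnd V hV fun a _ _ => ?_
  exact Or.inr (Or.inr (Or.inr fun j1 _ => Or.inr fun a' h1 h2 _ _ => hS a' h1 h2))

end Pool.Agent.Results.MP_4e5fcd_ag.CompactFacesIdeals
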