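import Mathlib
import Pool.Agent.TH216.ID.Gn3

/-!
# The motivic monodromy conjecture at the origin for ideals with generic coefficients

Let `F ⊂ ℂ` be a field and `I = (f_1, ..., f_r)`, `f_i = ∑_{π j = i} c_j x ^ (m_j) + h_i`, where `h_i` is
an ARBITRARY polynomial over `F` whose exponents are in the Newton polyhedron
`conv {m_j, π j = i} + ℝ_{≥ 0} ^ n` and only the coefficients `c_j` (for instance at the vertices) are
generic: `g(c) ≠ 0` for a certain nonzero polynomial `g` over `F`. Under the condition `HypI` on the
facets of the Newton polyhedron of `∑ y_i f_i` (which allows all facets that are B1 in a direction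
`y_i`, and many others which are B1) the local motivic zeta function of `I` at the origin,
`𝕃 ^ (-n) ∑_{N ≥ 1} [𝒳_N] (𝕃 ^ (-n) T) ^ N` with `𝒳_N` the `N`-jets with origin `0` on which `I` has
order `N`, lies in the ring generated by `T` and finitely many `1 / (1 - 𝕃 ^ a T ^ b)` with
`a < 0 < b` such that `a / b` is a ROOT of the local Bernstein-Sato polynomial of the ideal `I` at the
origin (Budur, Mustata and Saito); then `exp (2 π i a / b)` is an eigenvalue of Verdier's monodromy at
points over points near the origin.
-/

set_option autoImplicit false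

namespace Pool.Agent.Results.MP_4e5fcd_ag.GenericCoefficients

open MvPolynomial Pool.Agent.W428.MOT Pool.Agent.W749.JI Pool.Agent.TH216.HDI

/-- **The motivic monodromy conjecture at the origin (Bernstein-Sato form, exact roots) for the
ideals `(f_1, ..., f_r)`, `f_i = ∑_{π j = i} c_j x ^ (m_j) + h_i`, with generic coefficients `c_j`.**

`InPolyI π m h` says that all the exponents of `h_i` are in `conv {m_j, π j = i} + ℝ_{≥ 0} ^ n`;
`gens π m c h i = ∑_{π j = i} c_j x ^ (m_j) + h_i`.

`cay π m j = (m_j, e_{π j})` and `ysum h = ∑ y_i h_i`. `HypI v h`, `v = cay π m`, is the following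
condition on the facets of the Newton polyhedron of `∑ y_i f_i`, i.e. on the rays `a ∈ ℕ ^ (n + r)` of
its normal fan (`IsRay v a`) with `N_a = min_j ⟨a, v_j⟩ > 0` (`ordA v a`), with the candidate pole
`-|a| / N_a` (`lev v a = |a| / N_a`): the facet is B1 in a direction `y_i` (`YApex`: exactly one of its
monomials is divisible by `y_i`), or there is a facet with the same candidate pole which contains a
simplex which is not B1 (`NonB1`), or (`LocI`) at every `v_j` the facets with this candidate pole
through `v_j` are simplices or B1 in a common direction, or they are simplices or B1 in directions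
`y_i`.

`IsLocalBIdeal f b` says that `b(s_1 + ⋯ + s_r) ∏ f_i ^ s_i` satisfies a functional equation of
Budur, Mustata and Saito with differential operators with formal power series coefficients; the
local Bernstein-Sato polynomial `b_{I,0}` is one of these polynomials `b`. `zetaI` is
`𝕃 ^ (-n) ∑_{N ≥ 1} [𝒳_N] 𝕃 ^ (-n N) T ^ N` with `𝒳_N` the `N`-jets with origin `0` on which `I` has
order `N`. The finite set `S` is the same for all the fields `K` which contain `k`. -/
theorem result {F : Type} [Field F] [Algebra F ℂ] {n ℓ r : ℕ} (hℓ : 0 < ℓ) (π : Fin ℓ → Fin r)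
    (m : Fin ℓ → Fin n → ℕ) (hinj : ∀ j j', π j = π j' → m j = m j' → j = j')
    (h : Fin r → MvPolynomial (Fin n) F) (hh : InPolyI π m h) (hL : HypI (cay π m) (ysum h)) :
    ∃ g : MvPolynomial (Fin ℓ) F, g ≠ 0 ∧ ∀ (k : Type) [Field k] [Algebra F k] [Algebra k ℂ]
      [IsScalarTower F k ℂ] (c : Fin ℓ → k), aeval c g ≠ 0 →
      ∃ S : Finset (ℤ × ℤ),
        (∀ p ∈ S, p.1 < 0 ∧ 0 < p.2 ∧ ∀ b : Polynomial ℂ,
          IsLocalBIdeal (gens π m (fun j => algebraMap k ℂ (c j)) h) b →
            b.eval ((p.1 : ℂ) / p.2) = 0) ∧
        ∀ (K : Type) [Field K] [Algebra k K],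
          zetaI (fun i => MvPolynomial.map (algebraMap k K) (gens π m c h i)) ∈ ratRing K S :=
  Pool.Agent.TH216.ID.ideal_gen hℓ π m hinj h hh hL

end Pool.Agent.Results.MP_4e5fcd_ag.GenericCoefficients
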